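import Pool.Agent.H98.ABCR.Stmts3

/-!
# ABCR, module COB: `K ^ ω(n) ≤ C n ^ ε`
-/

set_option autoImplicit false

namespace Pool.Agent.H98.ABCR

open Finset

theorem cob_thm : S_COB := by
  intro K ε hK hε
  -- a bound such that `K ≤ p ^ ε` above it
  obtain ⟨N, hN⟩ : ∃ N : ℕ, ∀ p : ℕ, N ≤ p → K ≤ (p : ℝ) ^ ε := by
    have h := (tendsto_rpow_atTop hε).comp tendsto_natCast_atTop_atTop (α := ℕ)
    have h2 := (Filter.tendsto_atTop.1 h K)
    rw [Filter.eventually_atTop] at h2
    obtain ⟨N, hN⟩ := h2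
    exact ⟨N, fun p hp => hN p hp⟩
  have hK0 : (0 : ℝ) ≤ K := by linarith
  refine ⟨K ^ N, one_le_pow₀ hK, ?_⟩
  intro n hn
  have hn0 : n ≠ 0 := by omega
  -- pointwise bound
  have hpt : ∀ p ∈ n.primeFactors, K ≤ (if p < N then K else 1) * (p : ℝ) ^ ε := by
    intro p hp
    have hp1 : 1 ≤ (p : ℝ) := by
      have := (Nat.prime_of_mem_primeFactors hp).one_lt
      exact_mod_cast this.le
    have h1 : 1 ≤ (p : ℝ) ^ ε := Real.one_le_rpow hp1 hε.le
    split_ifs with h
    · nlinarith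
    · rw [one_mul]
      exact hN p (by omega)
  have h1 : K ^ om n ≤ ∏ p ∈ n.primeFactors, ((if p < N then K else 1) * (p : ℝ) ^ ε) := by
    have : K ^ om n = ∏ _p ∈ n.primeFactors, K := by
      rw [Finset.prod_const]
      rfl
    rw [this]
    exact Finset.prod_le_prod (fun _ _ => hK0) hpt
  have h2 : ∏ p ∈ n.primeFactors, (if p < N then K else 1) ≤ K ^ N := by
    rw [Finset.prod_ite, Finset.prod_const, Finset.prod_const_one, mul_one]
    refine pow_le_pow_right₀ hK ?_
    calc (n.primeFactors.filter fun p => p < N).card ≤ (Finset.range N).card :=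
          Finset.card_le_card fun p hp => Finset.mem_range.2 (Finset.mem_filter.1 hp).2
      _ = N := Finset.card_range N
  have h3 : ∏ p ∈ n.primeFactors, (p : ℝ) ^ ε ≤ (n : ℝ) ^ ε := by
    rw [Real.finsetProd_rpow _ _ (fun p _ => Nat.cast_nonneg p)]
    refine Real.rpow_le_rpow (Finset.prod_nonneg fun p _ => Nat.cast_nonneg p) ?_ hε.le
    rw [← Nat.cast_prod]
    exact_mod_cast Nat.le_of_dvd hn (Nat.prod_primeFactors_dvd n)
  rw [Finset.prod_mul_distrib] at h1
  refine h1.trans (mul_le_mul h2 h3 ?_ (pow_nonneg hK0 N))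
  exact Finset.prod_nonneg fun p _ => Real.rpow_nonneg (Nat.cast_nonneg p) ε

end Pool.Agent.H98.ABCR
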